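import Pool.Agent.Helper44.BB.Stmts

/-! Module NUM (MP_3c8fe7_nt): numerical inequalities. -/

set_option autoImplicit false

namespace Pool.Agent.Helper44.BB

open Filter Real

theorem num_ev (s b c : ℝ) (hb : 0 < b) (hc : 0 < c) :
    ∀ᶠ l : ℝ in atTop, l ^ s * Real.exp (-b * l) < c :=
  (tendsto_rpow_mul_exp_neg_mul_atTop_nhds_zero s b hb).eventually_lt_const hc

theorem num_evn (s : ℕ) (b c : ℝ) (hb : 0 < b) (hc : 0 < c) :
    ∀ᶠ l : ℝ in atTop, l ^ s * Real.exp (-b * l) < c := by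
  filter_upwards [num_ev (s : ℝ) b c hb hc] with l hl
  rwa [Real.rpow_natCast] at hl

/-- (NUM) numerical inequalities -/
theorem st_NUM : ST_NUM := by
  intro C hC
  have he := Real.exp_one_lt_d9
  have he0 : 0 < Real.exp 1 := Real.exp_pos _
  have h1 := num_evn 6 (1 / 171) (1 / 8) (by norm_num) (by norm_num)
  have h2 := num_evn 9 (1 / 36) (1 / 32) (by norm_num) (by norm_num)
  have h3 := num_ev (2 * (Real.exp 1 * C)) (19 / 20) (1 / 3 / Real.exp (Real.exp 1 * C))
    (by norm_num) (by positivity)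
  have h4 := num_evn 3 (4 - Real.exp 1 / 4 - 1 / 20) (1 / 3 / Real.exp (Real.exp 1))
    (by linarith) (by positivity)
  have h5 := num_evn 6 (1 / 19 - 1 / 20) (1 / 48) (by norm_num) (by norm_num)
  obtain ⟨l0, hl0⟩ := eventually_atTop.mp (h1.and (h2.and (h3.and (h4.and h5))))
  refine ⟨max l0 5, lt_of_lt_of_le (by norm_num) (le_max_right _ _), fun l hl => ?_⟩
  obtain ⟨g1, g2, g3, g4, g5⟩ := hl0 l ((le_max_left _ _).trans hl)
  have hl5 : (5 : ℝ) ≤ l := (le_max_right _ _).trans hl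
  have hl00 : 0 < l := by linarith
  refine ⟨?_, ?_, ?_⟩
  · have e : Real.exp (l / 19) ^ 2 = Real.exp (-(1 / 171) * l) * Real.exp (l / 9) := by
      rw [← Real.exp_nat_mul, ← Real.exp_add]
      congr 1
      push_cast
      ring
    rw [e]
    have hp : 0 < Real.exp (l / 9) := Real.exp_pos _
    calc 8 * (l ^ 3) ^ 2 * (Real.exp (-(1 / 171) * l) * Real.exp (l / 9))
        = 8 * (l ^ 6 * Real.exp (-(1 / 171) * l)) * Real.exp (l / 9) := by ring
      _ ≤ 8 * (1 / 8) * Real.exp (l / 9) := by gcongr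
      _ = Real.exp (l / 9) := by ring
  · have e : Real.exp (l / 9) ^ 2 = Real.exp (-(1 / 36) * l) * Real.exp (l / 4) := by
      rw [← Real.exp_nat_mul, ← Real.exp_add]
      congr 1
      push_cast
      ring
    rw [e]
    have hp : 0 < Real.exp (l / 4) := Real.exp_pos _
    calc 32 * (l ^ 3) ^ 3 * (Real.exp (-(1 / 36) * l) * Real.exp (l / 4))
        = 32 * (l ^ 9 * Real.exp (-(1 / 36) * l)) * Real.exp (l / 4) := by ring
      _ < 32 * (1 / 32) * Real.exp (l / 4) := by gcongr
      _ = Real.exp (l / 4) := by ring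
  · have hp : 0 < Real.exp (-(l / 20)) := Real.exp_pos _
    have t1 : Real.exp (-l + Real.exp 1 * (C * (1 + Real.log (l ^ 2)))) ≤
        1 / 3 * Real.exp (-(l / 20)) := by
      have e : Real.exp (-l + Real.exp 1 * (C * (1 + Real.log (l ^ 2)))) =
          (l ^ (2 * (Real.exp 1 * C)) * Real.exp (-(19 / 20) * l)) *
            Real.exp (Real.exp 1 * C) * Real.exp (-(l / 20)) := by
        rw [Real.rpow_def_of_pos hl00, ← Real.exp_add, ← Real.exp_add, ← Real.exp_add,
          Real.log_pow]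
        congr 1
        push_cast
        ring
      rw [e]
      have hq : 0 < Real.exp (Real.exp 1 * C) := Real.exp_pos _
      have g3' := mul_le_mul_of_nonneg_right g3.le hq.le
      rw [div_mul_cancel₀ _ hq.ne'] at g3'
      exact mul_le_mul_of_nonneg_right g3' hp.le
    have t2 : l ^ 3 * Real.exp (-(4 * l) + Real.exp 1 * (1 + l / 4)) ≤
        1 / 3 * Real.exp (-(l / 20)) := by
      have e : l ^ 3 * Real.exp (-(4 * l) + Real.exp 1 * (1 + l / 4)) =
          (l ^ 3 * Real.exp (-(4 - Real.exp 1 / 4 - 1 / 20) * l)) *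
            Real.exp (Real.exp 1) * Real.exp (-(l / 20)) := by
        rw [mul_assoc, mul_assoc, ← Real.exp_add, ← Real.exp_add]
        congr 2
        ring
      rw [e]
      have hq : 0 < Real.exp (Real.exp 1) := Real.exp_pos _
      have g4' := mul_le_mul_of_nonneg_right g4.le hq.le
      rw [div_mul_cancel₀ _ hq.ne'] at g4'
      exact mul_le_mul_of_nonneg_right g4' hp.le
    have t3 : 4 * (1 + l ^ 3) ^ 2 / Real.exp (l / 19) ≤ 1 / 3 * Real.exp (-(l / 20)) := by
      have e : 4 * (1 + l ^ 3) ^ 2 / Real.exp (l / 19) =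
          4 * (1 + l ^ 3) ^ 2 * (Real.exp (-(1 / 19 - 1 / 20) * l) * Real.exp (-(l / 20))) := by
        rw [div_eq_mul_inv, ← Real.exp_neg, ← Real.exp_add]
        congr 2
        ring
      rw [e]
      have h6 : (1 + l ^ 3) ^ 2 ≤ 4 * l ^ 6 := by
        have : (1 : ℝ) ≤ l ^ 3 := one_le_pow₀ (by linarith)
        nlinarith
      have hq : 0 < Real.exp (-(1 / 19 - 1 / 20) * l) := Real.exp_pos _
      calc 4 * (1 + l ^ 3) ^ 2 * (Real.exp (-(1 / 19 - 1 / 20) * l) * Real.exp (-(l / 20)))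
          ≤ 4 * (4 * l ^ 6) * (Real.exp (-(1 / 19 - 1 / 20) * l) * Real.exp (-(l / 20))) := by
            gcongr
        _ = 16 * (l ^ 6 * Real.exp (-(1 / 19 - 1 / 20) * l)) * Real.exp (-(l / 20)) := by ring
        _ ≤ 16 * (1 / 48) * Real.exp (-(l / 20)) := by gcongr
        _ = 1 / 3 * Real.exp (-(l / 20)) := by ring
    linarith

end Pool.Agent.Helper44.BB
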